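import Pool.Agent.H1.LP.Targets

/-!
# Modules GEN and MOM
-/

namespace Pool.Agent.H14.LP

open Finset Pool.Agent.H1.LP

theorem gen : S_GEN := by
  intro p B _ y
  have h1 : ∀ l : Fin B → ZMod p, y ^ (supp l).card = ∏ j, (if l j ≠ 0 then y else 1) := by
    intro l
    unfold supp
    rw [prod_ite, prod_const_one, mul_one, prod_const]
  rw [sum_congr rfl fun l _ => h1 l]
  have h2 : ∑ a : ZMod p, (if a ≠ 0 then y else 1) = 1 + ((p : ℝ) - 1) * y := by
    have h3 : ∀ a : ZMod p, (if a ≠ 0 then y else 1) = y + (if a = 0 then 1 - y else 0) := by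
      intro a
      by_cases h : a = 0 <;> simp [h]
    rw [sum_congr rfl fun a _ => h3 a, sum_add_distrib, sum_ite_eq' univ (0 : ZMod p),
      if_pos (mem_univ _), sum_const, card_univ, ZMod.card, nsmul_eq_mul]
    ring
  rw [← h2]
  have h4 := (Finset.prod_univ_sum (fun _ : Fin B => (univ : Finset (ZMod p)))
    (fun _ a => if a ≠ 0 then y else 1))
  rw [Fintype.piFinset_univ] at h4
  rw [← h4, prod_const, card_univ, Fintype.card_fin]

theorem mom : S_PAIR → S_AVG → S_MOM := by
  intro hP hA p B s _ Q _ _ D I V l hs hD hV hl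
  obtain ⟨hV0, hV1⟩ := hV
  set T : ℝ := ∑ X : Fin (2 * s) → Fin B → Q,
          if (∀ j ∈ supp l, ∀ r, ∃ r', r' ≠ r ∧ X r' j = X r j) then ∏ r, V (X r) else 0 with hT
  have h1 := hA p B s Q V l hV0
  have h2 := hP B Q D (supp l) V s hs hD hV0 (by
    intro L' hL' z
    refine hV1 L' ?_ z
    rw [disjoint_left]
    intro j hj hjI
    have h3 := hL' hj
    unfold supp at h3
    rw [mem_filter] at h3
    exact h3.2 (hl j hjI))
  rw [← hT] at h1 h2
  have hs' : (0 : ℝ) < s := by exact_mod_cast hs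
  have hDp : 0 < D := lt_of_lt_of_le (by positivity) hD
  have h5 : (D / (8 * s)) ^ (s * (supp l).card) * 4 ^ (s * (supp l).card) =
      (D / (2 * s)) ^ (s * (supp l).card) := by
    rw [← mul_pow]
    congr 1
    field_simp
    ring
  have h6 : T * (D / (8 * s)) ^ (s * (supp l).card) ≤ (∑ x, V x) ^ (2 * s) := by
    have h7 : (T * (D / (8 * s)) ^ (s * (supp l).card)) * 4 ^ (s * (supp l).card) ≤
        (∑ x, V x) ^ (2 * s) * 4 ^ (s * (supp l).card) := by
      rw [mul_assoc, h5]
      exact h2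
    exact le_of_mul_le_mul_right h7 (by positivity)
  have hnn : (0 : ℝ) ≤ (D / (8 * s)) ^ (s * (supp l).card) := by positivity
  calc (∑ al : Fin B → Q → ZMod p, ‖FS V l al‖ ^ (2 * s)) * (D / (8 * s)) ^ (s * (supp l).card)
      ≤ ((Fintype.card (Fin B → Q → ZMod p) : ℝ) * T) * (D / (8 * s)) ^ (s * (supp l).card) :=
        mul_le_mul_of_nonneg_right h1 hnn
    _ = (Fintype.card (Fin B → Q → ZMod p) : ℝ) * (T * (D / (8 * s)) ^ (s * (supp l).card)) := by
        ring
    _ ≤ _ := mul_le_mul_of_nonneg_left h6 (Nat.cast_nonneg _)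

end Pool.Agent.H14.LP
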