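import Pool.Agent.H7.LP.Targets

/-!
# Row ISO of the board lpg: isomorphic structures
-/

set_option autoImplicit false

open Set Filter Topology

namespace Pool.Agent.H14.LP

open Pool.Agent.H7.LP

theorem pf_ISO : T_ISO := by
  intro G X _ _ _ _ L M _ Y S x e w w' hc hs hi
  obtain ⟨π, hπ⟩ := hi
  refine ⟨fun i => e (mv π i), ⟨fun q g h j => hc.node q g h (π q j), ?_⟩, ?_⟩
  · intro q g h N
    obtain ⟨j', hj', hg⟩ := hc.all q g h (((Finset.range N).sup fun j => π q j) + 1)
    refine ⟨(π q).symm j', ?_, ?_⟩
    · by_contra hlt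
      push Not at hlt
      have h1 : π q ((π q).symm j') ≤ (Finset.range N).sup fun j => π q j :=
        Finset.le_sup (f := fun j => π q j) (Finset.mem_range.2 hlt)
      rw [Equiv.apply_symm_apply] at h1
      omega
    · show g * (e (q, π q ((π q).symm j')))⁻¹ ∈ S.K q
      rw [Equiv.apply_symm_apply]
      exact hg
  · intro i j n
    rw [hπ]
    exact hs (mv π i) (mv π j) n

end Pool.Agent.H14.LP
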