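import Pool.Agent.H7.LP.Targets

/-!
# Row RSQ of the board lpg: a sequence of indices which is good for two codes
-/

set_option autoImplicit false

open Set Filter Topology

namespace Pool.Agent.H14.LP

open Pool.Agent.H7.LP

theorem pf_RSQ (h1 : T_PRS) (h2 : T_DIC) : T_RSQ := by
  classical
  intro G X _ _ _ _ L M _ Y S x x' e e' w hc hc' hs hs'
  obtain ⟨q, g, hq⟩ := S.ex x
  have hq0 : pres w q := (h1 G X L M Y S x e w hc hs q).2 ⟨g, hq⟩
  have st : ∀ (s : ℕ) (i : {i : ℕ × ℕ // pres w i.1}), ∃ l : {i : ℕ × ℕ // pres w i.1},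
      (∃ n, w (l.1, i.1, n) = true) ∧ s ≤ S.k l.1.1 ∧
      (s % 2 = 0 → e l.1 ∈ L.H (S.k l.1.1)) ∧ (s % 2 = 1 → e' l.1 ∈ L.H (S.k l.1.1)) := by
    intro s i
    rcases Nat.mod_two_eq_zero_or_one s with h | h
    · obtain ⟨l, p1, p2, p3, p4, -⟩ := h2 G X L M Y S x e w hc hs i.1 i.1 s i.2 i.2
      exact ⟨⟨l, p1⟩, p4, p2, fun _ => p3, fun h' => by omega⟩
    · obtain ⟨l, p1, p2, p3, p4, -⟩ := h2 G X L M Y S x' e' w hc' hs' i.1 i.1 s i.2 i.2
      exact ⟨⟨l, p1⟩, p4, p2, fun h' => by omega, fun _ => p3⟩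
  choose f hf1 hf2 hf3 hf4 using st
  let u : ℕ → {i : ℕ × ℕ // pres w i.1} := fun s => Nat.rec ⟨(q, 0), hq0⟩ (fun s i => f s i) s
  refine ⟨fun s => (u s).1, fun s => (u s).2, fun s => hf1 s (u s), fun m => ⟨2 * m + 1, ?_, ?_⟩,
    fun m => ⟨2 * m + 1 + 1, ?_, ?_⟩⟩
  · have := hf2 (2 * m) (u (2 * m))
    exact le_trans (by omega) this
  · exact hf3 (2 * m) (u (2 * m)) (by omega)
  · have := hf2 (2 * m + 1) (u (2 * m + 1))
    exact le_trans (by omega) this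
  · exact hf4 (2 * m + 1) (u (2 * m + 1)) (by omega)

end Pool.Agent.H14.LP
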